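import Mathlib

namespace Pool.Agent.Results.MP_383f58_co.TwoTori

open Finset

/-- A simplicial complex on the vertex set `V` (every element of `V` is a vertex). -/
def IsComplex {V : Type} (D : Set (Finset V)) : Prop :=
  (∀ s ∈ D, ∀ t, t ⊆ s → t ∈ D) ∧ ∀ v, {v} ∈ D

/-- Number of `i`-dimensional faces. -/
noncomputable def fNum {V : Type} (D : Set (Finset V)) (i : ℕ) : ℕ :=
  {s | s ∈ D ∧ s.card = i + 1}.ncard

/-- Flag: every set of vertices pairwise joined by edges is a face. -/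
def IsFlag {V : Type} [DecidableEq V] (D : Set (Finset V)) : Prop :=
  ∀ s : Finset V, (∀ u ∈ s, ∀ v ∈ s, u ≠ v → ({u, v} : Finset V) ∈ D) → s ∈ D

/-- `d`-dimensional pseudomanifold: pure of dimension `d`, and every `(d-1)`-face lies in
exactly two facets. -/
def IsPseudomanifold {V : Type} (D : Set (Finset V)) (d : ℕ) : Prop :=
  (∀ s ∈ D, s.card ≤ d + 1) ∧ (∀ s ∈ D, ∃ t ∈ D, s ⊆ t ∧ t.card = d + 1) ∧
    ∀ s ∈ D, s.card = d → {t | t ∈ D ∧ s ⊆ t ∧ t.card = d + 1}.ncard = 2

/-- In `J m n` the vertices `0, ..., n-1` are split by their residue mod `m`; the class of `u`,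
listed increasingly, is a cycle. `CycAdj m u v`: `v` follows `u` on this cycle. -/
def CycAdj (m : ℕ) {n : ℕ} (u v : Fin n) : Prop :=
  v.val = u.val + m ∨ (n ≤ u.val + m ∧ v.val = u.val % m)

/-- The join of `m` cycles of almost equal lengths on `n` vertices: a face meets each cycle in at
most two vertices, and two vertices of a face on the same cycle are consecutive on it. -/
def J (m n : ℕ) : Set (Finset (Fin n)) :=
  {s | (∀ j, (s.filter (fun v => v.val % m = j)).card ≤ 2) ∧
    ∀ u ∈ s, ∀ v ∈ s, u ≠ v → u.val % m = v.val % m → CycAdj m u v ∨ CycAdj m v u}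

instance (m n : ℕ) (u v : Fin n) : Decidable (CycAdj m u v) := by unfold CycAdj; infer_instance

/-- Paley graph on 13 vertices: a flag torus. -/
def A (u v : Fin 13) : Prop := u - v = 1 ∨ u - v = 3 ∨ u - v = 4 ∨ u - v = 9 ∨ u - v = 10 ∨ u - v = 12

instance : DecidableRel A := fun u v => by unfold A; infer_instance

def Cl (s : Finset (Fin 13)) : Prop := ∀ u ∈ s, ∀ v ∈ s, u ≠ v → A u v

instance : DecidablePred Cl := fun s => by unfold Cl; infer_instance

theorem Cl.mono {s t : Finset (Fin 13)} (h : Cl s) (ht : t ⊆ s) : Cl t :=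
  fun u hu v hv => h u (ht hu) v (ht hv)

def N4 (a b : Fin 13) : Prop := ∀ c d, A a c → A a d → A b c → A b d → ¬ A c d

instance (a b : Fin 13) : Decidable (N4 a b) := by unfold N4; infer_instance

theorem no4 : ∀ a b, A a b → N4 a b := by decide +kernel

theorem Cl.le {s : Finset (Fin 13)} (h : Cl s) : s.card ≤ 3 := by
  by_contra hc
  obtain ⟨a, b, c, d, ha, hb, hc, hd, h1, h2, h3, h4, h5, h6⟩ :=
    three_lt_card_iff.1 (show 3 < s.card by omega)
  exact no4 a b (h a ha b hb h1) c d (h a ha c hc h2) (h a ha d hd h3) (h b hb c hc h4)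
    (h b hb d hd h5) (h c hc d hd h6)

def tri (p : Fin 13 × Bool) : Finset (Fin 13) := {p.1, p.1 + (if p.2 then 1 else 3), p.1 + 4}

def T : Finset (Finset (Fin 13)) := univ.image tri

theorem T_card : T.card = 26 := by decide +kernel

theorem T1 : ∀ p, Cl (tri p) ∧ (tri p).card = 3 := by decide +kernel

theorem T2 : ∀ a b c, A a b → A a c → A b c → ({a, b, c} : Finset (Fin 13)) ∈ T := by
  decide +kernel

theorem mem_T {t : Finset (Fin 13)} : t ∈ T ↔ Cl t ∧ t.card = 3 := by
  constructor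
  · intro h
    obtain ⟨p, _, rfl⟩ := mem_image.1 h
    exact T1 p
  · rintro ⟨h, h3⟩
    obtain ⟨a, b, c, h1, h2, h4, rfl⟩ := card_eq_three.1 h3
    exact T2 a b c (h a (by simp) b (by simp) h1) (h a (by simp) c (by simp) h2)
      (h b (by simp) c (by simp) h4)

theorem two0 : ∀ a b, A a b → (T.filter (fun t => {a, b} ⊆ t)).card = 2 := by decide +kernel

theorem two {s : Finset (Fin 13)} (h : Cl s) (h2 : s.card = 2) :
    (T.filter (fun t => s ⊆ t)).card = 2 := by
  obtain ⟨a, b, h1, rfl⟩ := card_eq_two.1 h2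
  exact two0 a b (h a (by simp) b (by simp) h1)

theorem Cl.ext {s : Finset (Fin 13)} (h : Cl s) : ∃ t ∈ T, s ⊆ t := by
  have h3 := h.le
  have hT : ∀ p, tri p ∈ T := fun p => mem_image_of_mem _ (mem_univ p)
  rcases (by omega : s.card = 0 ∨ s.card = 1 ∨ s.card = 2 ∨ s.card = 3) with h1 | h1 | h1 | h1
  · exact ⟨_, hT (0, true), by simp [card_eq_zero.1 h1]⟩
  · obtain ⟨a, rfl⟩ := card_eq_one.1 h1
    exact ⟨_, hT (a, true), by simp [tri]⟩
  · obtain ⟨t, ht⟩ := card_pos.1 ((two h h1).symm ▸ two_pos)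
    exact ⟨t, (mem_filter.1 ht).1, (mem_filter.1 ht).2⟩
  · exact ⟨s, mem_T.2 ⟨h, h1⟩, le_rfl⟩

abbrev V := Fin 13 ⊕ Fin 13

def D : Set (Finset V) := {s | Cl s.toLeft ∧ Cl s.toRight}

theorem D_complex : IsComplex D := by
  refine ⟨fun s hs t ht => ⟨hs.1.mono (toLeft_subset_toLeft ht),
    hs.2.mono (toRight_subset_toRight ht)⟩, fun v => ⟨?_, ?_⟩⟩
  · intro a ha b hb hab
    simp only [mem_toLeft, mem_singleton] at ha hb
    exact absurd (Sum.inl_injective (ha.trans hb.symm)) hab
  · intro a ha b hb hab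
    simp only [mem_toRight, mem_singleton] at ha hb
    exact absurd (Sum.inr_injective (ha.trans hb.symm)) hab

theorem D_flag : IsFlag D := by
  intro s hs
  refine ⟨fun u hu v hv h => ?_, fun u hu v hv h => ?_⟩
  · exact (hs _ (mem_toLeft.1 hu) _ (mem_toLeft.1 hv) (by simpa using h)).1 u (by simp) v
      (by simp) h
  · exact (hs _ (mem_toRight.1 hu) _ (mem_toRight.1 hv) (by simpa using h)).2 u (by simp) v
      (by simp) h

theorem facet {t : Finset V} : (t ∈ D ∧ t.card = 6) ↔ t.toLeft ∈ T ∧ t.toRight ∈ T := by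
  have := card_toLeft_add_card_toRight (u := t)
  simp only [mem_T, D, Set.mem_ofPred_eq]
  constructor
  · rintro ⟨⟨h1, h2⟩, h⟩
    have := h1.le
    have := h2.le
    exact ⟨⟨h1, by omega⟩, h2, by omega⟩
  · rintro ⟨⟨h1, h3⟩, h2, h4⟩
    exact ⟨⟨h1, h2⟩, by omega⟩

theorem sub_iff {s t : Finset V} : s ⊆ t ↔ s.toLeft ⊆ t.toLeft ∧ s.toRight ⊆ t.toRight := by
  refine ⟨fun h => ⟨toLeft_subset_toLeft h, toRight_subset_toRight h⟩, fun h x hx => ?_⟩
  rcases x with x | x
  · exact mem_toLeft.1 (h.1 (mem_toLeft.2 hx))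
  · exact mem_toRight.1 (h.2 (mem_toRight.2 hx))

theorem count (P Q : Finset (Finset (Fin 13))) :
    {t : Finset V | t.toLeft ∈ P ∧ t.toRight ∈ Q}.ncard = P.card * Q.card := by
  rw [← card_product, ← Set.ncard_coe_finset]
  refine Set.ncard_congr (fun t _ => (t.toLeft, t.toRight)) (fun t ht => by simpa using ht)
    (fun a b _ _ h => ?_) (fun p hp => ⟨p.1.disjSum p.2, by simpa using hp, by simp⟩)
  simp only [Prod.mk.injEq] at h
  rw [← toLeft_disjSum_toRight (u := a), ← toLeft_disjSum_toRight (u := b), h.1, h.2]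

theorem one {s : Finset (Fin 13)} (h : s ∈ T) : (T.filter (fun t => s ⊆ t)).card = 1 := by
  rw [card_eq_one]
  refine ⟨s, eq_singleton_iff_unique_mem.2 ⟨by simp [h], fun t ht => ?_⟩⟩
  rw [mem_filter] at ht
  exact (eq_of_subset_of_card_le ht.2 (by rw [(mem_T.1 h).2, (mem_T.1 ht.1).2])).symm

theorem D_pseudo : IsPseudomanifold D 5 := by
  refine ⟨fun s hs => ?_, fun s hs => ?_, fun s hs h5 => ?_⟩
  · have := card_toLeft_add_card_toRight (u := s)
    have := hs.1.le
    have := hs.2.le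
    omega
  · obtain ⟨a, ha, h1⟩ := hs.1.ext
    obtain ⟨b, hb, h2⟩ := hs.2.ext
    have := (facet (t := a.disjSum b)).2 (by simpa using ⟨ha, hb⟩)
    exact ⟨_, this.1, sub_iff.2 (by simpa using ⟨h1, h2⟩), this.2⟩
  · have e : {t | t ∈ D ∧ s ⊆ t ∧ t.card = 5 + 1} = {t : Finset V |
        t.toLeft ∈ T.filter (fun t => s.toLeft ⊆ t) ∧
        t.toRight ∈ T.filter (fun t => s.toRight ⊆ t)} := by
      ext t
      have := facet (t := t)
      simp only [Set.mem_ofPred_eq, mem_filter, sub_iff (s := s) (t := t)]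
      tauto
    rw [e, count]
    have := card_toLeft_add_card_toRight (u := s)
    have h1 := hs.1.le
    have h2 := hs.2.le
    rcases h1.lt_or_eq with h | h
    · rw [two hs.1 (by omega),
        one (mem_T.2 ⟨hs.2, by omega⟩)]
    · rw [two hs.2 (by omega), one (mem_T.2 ⟨hs.1, h⟩)]

theorem D_f : fNum D 5 = 676 := by
  have e : {s | s ∈ D ∧ s.card = 5 + 1} = {t : Finset V | t.toLeft ∈ T ∧ t.toRight ∈ T} := by
    ext t; exact facet
  rw [fNum, e, count, T_card]

def E0 (j : ℕ) : Finset (Fin 26 × Fin 26) :=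
  univ.filter (fun p => p.1.val % 3 = j ∧ CycAdj 3 p.1 p.2)

def E (j : ℕ) : Finset (Finset (Fin 26)) := (E0 j).image (fun p => {p.1, p.2})

theorem E0_card : ∀ j < 3, (E0 j).card = if j = 2 then 8 else 9 := by decide +kernel

theorem E_card (j : ℕ) (h : j < 3) : (E j).card ≤ if j = 2 then 8 else 9 :=
  E0_card j h ▸ card_image_le

theorem J_f : fNum (J 3 26) 5 ≤ 648 := by
  have h : {s | s ∈ J 3 26 ∧ s.card = 5 + 1} ⊆
      ↑((E 0 ×ˢ E 1 ×ˢ E 2).image (fun p => p.1 ∪ p.2.1 ∪ p.2.2)) := by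
    rintro s ⟨⟨h1, h2⟩, h6⟩
    have e : s.filter (fun v => v.val % 3 = 0) ∪ s.filter (fun v => v.val % 3 = 1) ∪
        s.filter (fun v => v.val % 3 = 2) = s := by
      ext v
      simp only [mem_union, mem_filter]
      have : v.val % 3 = 0 ∨ v.val % 3 = 1 ∨ v.val % 3 = 2 := by omega
      tauto
    have c1 := card_union_le (s.filter (fun v => v.val % 3 = 0) ∪
      s.filter (fun v => v.val % 3 = 1)) (s.filter (fun v => v.val % 3 = 2))
    have c2 := card_union_le (s.filter (fun v => v.val % 3 = 0)) (s.filter (fun v => v.val % 3 = 1))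
    rw [e] at c1
    have a0 := h1 0
    have a1 := h1 1
    have a2 := h1 2
    have key : ∀ j, (s.filter (fun v => v.val % 3 = j)).card = 2 →
        s.filter (fun v => v.val % 3 = j) ∈ E j := by
      intro j hj
      obtain ⟨u, v, huv, e⟩ := card_eq_two.1 hj
      have hu : u ∈ s.filter (fun v => v.val % 3 = j) := by simp [e]
      have hv : v ∈ s.filter (fun v => v.val % 3 = j) := by simp [e]
      rw [mem_filter] at hu hv
      rw [e]
      rcases h2 u hu.1 v hv.1 huv (hu.2.trans hv.2.symm) with h | h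
      · exact mem_image.2 ⟨(u, v), by simp [E0, hu.2, h], rfl⟩
      · exact mem_image.2 ⟨(v, u), by simp [E0, hv.2, h], pair_comm _ _⟩
    refine mem_coe.2 (mem_image.2 ⟨(_, _, _), ?_, e⟩)
    simp only [mem_product]
    exact ⟨key 0 (by omega), key 1 (by omega), key 2 (by omega)⟩
  have := Set.ncard_le_ncard h (Finset.finite_toSet _)
  rw [Set.ncard_coe_finset] at this
  refine this.trans (card_image_le.trans ?_)
  rw [card_product, card_product]
  exact Nat.mul_le_mul (E_card 0 (by norm_num))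
    (Nat.mul_le_mul (E_card 1 (by norm_num)) (E_card 2 (by norm_num)))

theorem result : ¬ ∀ (m : ℕ) (V : Type) [Fintype V] [DecidableEq V] (D : Set (Finset V)),
    1 ≤ m → 3 * m ≤ Fintype.card V → IsComplex D → IsFlag D → IsPseudomanifold D (2 * m - 1) →
    ∀ i, 1 ≤ i → i ≤ 2 * m - 1 → fNum D i ≤ fNum (J m (Fintype.card V)) i := by
  intro h
  have := h 3 V D (by norm_num) (by simp) D_complex D_flag D_pseudo 5 (by norm_num) (by norm_num)
  have e : Fintype.card V = 26 := by simp
  rw [e, D_f] at this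
  have := J_f
  omega

end Pool.Agent.Results.MP_383f58_co.TwoTori
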